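import Pool.Agent.H.MP_68c508_lc.Defs

set_option autoImplicit false

namespace Pool.Agent.H.MP_68c508_lc

abbrev W := List Bool

def g (i : Fin 4) : Grig := ⟨gen i, Subgroup.subset_closure ⟨i, rfl⟩⟩

@[simp] theorem g_smul (i w) : g i • w = act i w := rfl
@[simp] theorem act_act (i w) : act i (act i w) = w := act_inv i w
theorem ext {x y : Grig} (h : ∀ w : W, x • w = y • w) : x = y := Subtype.ext (Equiv.ext h)
@[simp] theorem g_inv (i) : (g i)⁻¹ = g i := inv_eq_of_mul_eq_one_left (ext fun w => by simp [mul_smul])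

theorem ind {p : Grig → Prop} (h0 : ∀ i, p (g i)) (h1 : p 1) (h2 : ∀ x y, p x → p y → p (x * y))
    (h3 : ∀ x, p x → p x⁻¹) (x : Grig) : p x := by
  obtain ⟨x, hx⟩ := x
  induction hx using Subgroup.closure_induction with
  | mem x h => obtain ⟨i, rfl⟩ := h; exact h0 i
  | one => exact h1
  | mul x y _ _ a b => exact h2 _ _ a b
  | inv x _ a => exact h3 _ a

theorem sec (x : Grig) : x • ([] : W) = [] ∧ ∃ s, ∀ a, ∃ h : Grig, ∀ w : W, x • (a :: w) = xor a s :: h • w := by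
  induction x using ind with
  | h0 i =>
    refine ⟨rfl, ?_⟩
    match i with
    | 0 => exact ⟨true, fun a => ⟨1, by simp [act]⟩⟩
    | 1 => exact ⟨false, fun | false => ⟨g 0, by simp [act]⟩ | true => ⟨g 2, by simp [act]⟩⟩
    | 2 => exact ⟨false, fun | false => ⟨g 0, by simp [act]⟩ | true => ⟨g 3, by simp [act]⟩⟩
    | 3 => exact ⟨false, fun | false => ⟨1, by simp [act]⟩ | true => ⟨g 1, by simp [act]⟩⟩
  | h1 => exact ⟨rfl, false, fun a => ⟨1, by simp⟩⟩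
  | h2 x y a b =>
    obtain ⟨a, s, a'⟩ := a
    obtain ⟨b, t, b'⟩ := b
    refine ⟨by rw [mul_smul, b, a], xor t s, fun c => ?_⟩
    obtain ⟨h, e⟩ := b' c
    obtain ⟨k, f⟩ := a' (xor c t)
    exact ⟨k * h, fun w => by simp [mul_smul, e, f]⟩
  | h3 x a =>
    obtain ⟨a, s, a'⟩ := a
    refine ⟨inv_smul_eq_iff.2 a.symm, s, fun c => ?_⟩
    obtain ⟨h, e⟩ := a' (xor c s)
    exact ⟨h⁻¹, fun w => inv_smul_eq_iff.2 (by simp [e])⟩

@[simp] theorem nil (x : Grig) : x • ([] : W) = [] := (sec x).1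

@[simp] theorem len (x : Grig) (w : W) : (x • w).length = w.length := by
  induction w generalizing x with
  | nil => simp
  | cons a w ih =>
    obtain ⟨s, h⟩ := (sec x).2
    obtain ⟨h, e⟩ := h a
    simp [e, ih]

theorem app (x : Grig) (v : W) : ∃ h : Grig, ∀ w, x • (v ++ w) = x • v ++ h • w := by
  induction v generalizing x with
  | nil => exact ⟨x, by simp⟩
  | cons a v ih =>
    obtain ⟨s, h⟩ := (sec x).2
    obtain ⟨h, e⟩ := h a
    obtain ⟨k, f⟩ := ih h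
    exact ⟨k, fun w => by simp [e, f]⟩

theorem pre (x : Grig) {v w : W} : v <+: w → x • v <+: x • w := by
  rintro ⟨u, rfl⟩
  obtain ⟨h, e⟩ := app x v
  exact ⟨_, (e u).symm⟩

def Pr (x : Grig) (a : Bool) (h k : Grig) : Prop :=
  ∀ w : W, x • (a :: w) = a :: h • w ∧ x • ((!a) :: w) = (!a) :: k • w

section
variable {x y h k h' k' : Grig} {a : Bool}

theorem Pr.one : Pr 1 a 1 1 := by simp [Pr]
theorem Pr.mul (p : Pr x a h k) (q : Pr y a h' k') : Pr (x * y) a (h * h') (k * k') := fun w => by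
  simp only [mul_smul, (q _).1, (q _).2, (p _).1, (p _).2, and_self]
theorem Pr.inv (p : Pr x a h k) : Pr x⁻¹ a h⁻¹ k⁻¹ := fun w => by
  simp only [inv_smul_eq_iff, (p _).1, (p _).2, smul_inv_smul, and_self]
theorem Pr.sw (p : Pr x a h k) : Pr x (!a) k h := fun w => by simpa [and_comm] using p w
theorem Pr.fl (p : Pr x false h k) (a) : ∃ y, Pr y a h k ∧ (y = x ∨ y = g 0 * x * (g 0)⁻¹) := by
  cases a
  · exact ⟨x, p, .inl rfl⟩
  · refine ⟨_, fun w => ?_, .inr rfl⟩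
    have := p w
    simp_all [mul_smul, act]

theorem frac (a) (h : Grig) : ∃ x k, Pr x a h k := by
  suffices ∃ x k, Pr x false h k from let ⟨_, k, p⟩ := this; let ⟨y, q, _⟩ := p.fl a; ⟨y, k, q⟩
  induction h using ind with
  | h0 i => match i with
    | 0 => exact ⟨g 1, g 2, by simp [Pr, act]⟩
    | 1 => exact ⟨g 0 * g 3 * g 0, 1, by simp [Pr, act, mul_smul]⟩
    | 2 => exact ⟨g 0 * g 1 * g 0, g 0, by simp [Pr, act, mul_smul]⟩
    | 3 => exact ⟨g 0 * g 2 * g 0, g 0, by simp [Pr, act, mul_smul]⟩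
  | h1 => exact ⟨_, _, .one⟩
  | h2 x y a b => exact let ⟨_, _, p⟩ := a; let ⟨_, _, q⟩ := b; ⟨_, _, p.mul q⟩
  | h3 x a => exact let ⟨_, _, p⟩ := a; ⟨_, _, p.inv⟩

end

def sc (N L : Subgroup Grig) (a : Bool) : Subgroup Grig where
  carrier := {h | ∃ x ∈ N, ∃ k ∈ L, Pr x a h k}
  one_mem' := ⟨1, one_mem _, 1, one_mem _, .one⟩
  mul_mem' := fun ⟨_, a, _, b, p⟩ ⟨_, c, _, d, q⟩ => ⟨_, mul_mem a c, _, mul_mem b d, p.mul q⟩
  inv_mem' := fun ⟨_, a, _, b, p⟩ => ⟨_, inv_mem a, _, inv_mem b, p.inv⟩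

instance (N L : Subgroup Grig) [hN : N.Normal] [hL : L.Normal] (a) : (sc N L a).Normal :=
  ⟨fun _ ⟨_, b, _, c, p⟩ y => let ⟨z, k, q⟩ := frac a y
    ⟨_, hN.conj_mem _ b z, _, hL.conj_mem _ c k, (q.mul p).mul q.inv⟩⟩

def t : Grig := g 0 * g 1 * g 0 * g 1

theorem dbd (w : W) : act 2 (act 1 w) = act 3 w ∧ act 3 (act 2 w) = act 1 w ∧ act 1 (act 3 w) = act 2 w ∧
    act 1 (act 2 w) = act 3 w ∧ act 2 (act 3 w) = act 1 w ∧ act 3 (act 1 w) = act 2 w := by
  induction w with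
  | nil => simp [act]
  | cons x w ih => cases x <;> simp [act, ih]

theorem tau (v : W) : ∃ x ∈ Subgroup.normalClosure {t}, (∀ w, x • (v ++ w) = v ++ t • w) ∧
    ∀ w, ¬v <+: w → x • w = w := by
  have ht : t ∈ Subgroup.normalClosure {t} := Subgroup.subset_normalClosure rfl
  have n := Subgroup.normalClosure_normal (s := {t})
  induction v with
  | nil => exact ⟨t, ht, by simp, by simp⟩
  | cons a v ih =>
    obtain ⟨x, h1, h2, h3⟩ := ih
    obtain ⟨y, k1, _, rfl, k2⟩ : x ∈ sc (Subgroup.normalClosure {t}) ⊥ a := by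
      refine Subgroup.normalClosure_le_normal ?_ h1
      rintro _ rfl
      have p : Pr (g 1 * g 0 * (g 3 * t * (g 3)⁻¹) * (g 1 * g 0)⁻¹ * t⁻¹) false t 1 := fun w => by
        have := dbd
        simp_all [t, mul_smul, act]
      have m := mul_mem (n.conj_mem _ (n.conj_mem _ ht (g 3)) (g 1 * g 0)) (inv_mem ht)
      obtain ⟨y, q, rfl | rfl⟩ := p.fl a
      exacts [⟨_, m, 1, rfl, q⟩, ⟨_, n.conj_mem _ m _, 1, rfl, q⟩]
    refine ⟨y, k1, fun w => by simp [(k2 _).1, h2], ?_⟩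
    rintro (_ | ⟨b, w⟩) h
    · simp
    · by_cases e : b = a
      · rw [e, (k2 _).1, h3 w (by simpa [e] using h)]
      · rw [Bool.eq_not.2 e, (k2 _).2, one_smul]

theorem t_mv (x y w) : t • (x :: y :: w : W) ≠ x :: y :: w := by
  cases x <;> cases y <;> simp [t, mul_smul, act]

theorem t_12 : t ^ 12 • ([false, false, false, false, false] : W) ≠ [false, false, false, false, false] := by
  simp [t, pow_succ, mul_smul, act]

def Tr (L : Subgroup Grig) (n : ℕ) : Prop := ∀ v w : W, v.length = n → w.length = n → ∃ x ∈ L, x • v = w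

theorem step {N L : Subgroup Grig} (h : N ≤ L) {s} (hs : s ∈ L) (h1 : ∀ w : W, ∃ u, s • (true :: w) = false :: u)
    {n} (h2 : Tr (sc N ⊤ false) n) : Tr L (n + 1) := by
  have : ∀ v : W, v.length = n + 1 → ∃ x ∈ L, ∃ u : W, u.length = n ∧ x • v = false :: u := by
    rintro (_ | ⟨_ | _, v⟩) e
    · simp at e
    · exact ⟨1, one_mem _, v, by simpa using e, by simp⟩
    · obtain ⟨u, f⟩ := h1 v
      exact ⟨s, hs, u, by simpa [e] using (congrArg List.length f).symm, f⟩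
  intro v w a b
  obtain ⟨x, a1, v', a2, a3⟩ := this v a
  obtain ⟨y, b1, w', b2, b3⟩ := this w b
  obtain ⟨_, ⟨z, c1, _, -, c2⟩, c3⟩ := h2 v' w' a2 b2
  exact ⟨y⁻¹ * (z * x), mul_mem (inv_mem b1) (mul_mem (h c1) a1), by
    rw [mul_smul, mul_smul, a3, (c2 _).1, c3, ← b3, inv_smul_smul]⟩

theorem tr0 (L) : Tr L 0 := fun v w a b => ⟨1, one_mem _, by simp_all⟩

theorem tr (n : ℕ) : (∀ (N : Subgroup Grig) [N.Normal], g 0 ∈ N → Tr N n) ∧
    ∀ (N : Subgroup Grig) [N.Normal], g 1 ∈ N → g 2 * g 0 ∈ N → Tr N n := by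
  induction n with
  | zero => exact ⟨fun _ _ _ => tr0 _, fun _ _ _ _ => tr0 _⟩
  | succ n ih =>
    refine ⟨fun N n h => step le_rfl h (by simp [act]) (ih.2 _ ?_ ?_), fun N _ h h' => step le_rfl h'
      (by simp [act, mul_smul]) (ih.1 _ ⟨_, h, g 2, trivial, by simp [Pr, act]⟩)⟩
    · exact ⟨_, mul_mem h (n.conj_mem _ h (g 3)), g 1, trivial, by simp [Pr, act, mul_smul]⟩
    · exact ⟨_, mul_mem h (n.conj_mem _ h (g 1)), g 0 * g 2, trivial, by simp [Pr, act, mul_smul]⟩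

theorem trans {v w : W} (h : v.length = w.length) : ∃ x : Grig, x • v = w :=
  let ⟨x, _, e⟩ := (tr _).1 ⊤ trivial v w h rfl; ⟨x, e⟩

theorem key (p : W) (a : Bool) (v : W) {w w' : W} (h : w.length = w'.length) :
    ∃ x : Grig, x • (p ++ a :: v) = p ++ a :: v ∧ x • (p ++ (!a) :: w) = p ++ (!a) :: w' := by
  induction p with
  | cons b p ih =>
    obtain ⟨x, h1, h2⟩ := ih
    obtain ⟨y, k, q⟩ := frac b x
    exact ⟨y, by simp [(q _).1, h1], by simp [(q _).1, h2]⟩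
  | nil =>
    suffices Tr (sc ⊤ (MulAction.stabilizer Grig v) !a) w'.length by
      obtain ⟨_, ⟨x, -, k, h1, h2⟩, h3⟩ := this w w' h rfl
      exact ⟨x, by simpa [show k • v = v from h1] using (h2 v).2, by simpa [h3] using (h2 w).1⟩
    have fl : ∀ L x h k, k ∈ L → Pr x false h k → h ∈ sc ⊤ L !a := fun L x h k a p =>
      let ⟨y, q, _⟩ := p.fl _; ⟨y, trivial, k, a, q⟩
    rcases w'.length with _ | n
    · exact tr0 _
    obtain ⟨s, h1, h2⟩ : ∃ s ∈ sc ⊤ (MulAction.stabilizer Grig v) !a, ∀ w : W, ∃ u, s • (true :: w) = false :: u := by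
      rcases v with _ | ⟨_ | _, v⟩
      · exact ⟨g 0, fl _ (g 1) _ (g 2) rfl (by simp [Pr, act]), by simp [act]⟩
      · exact ⟨g 0, fl _ (g 2) _ (g 3) rfl (by simp [Pr, act]), by simp [act]⟩
      · exact ⟨g 2 * g 0 * g 2, fl _ (g 0 * g 1 * g 0 * g 2 * g 0 * g 1 * g 0) _ (g 0 * g 3 * g 0) rfl
          (by simp [Pr, act, mul_smul]), by simp [act, mul_smul]⟩
    exact step (N := sc ⊤ ⊥ !a) (L := sc ⊤ _ !a) (fun _ ⟨x, a, k, b, p⟩ => ⟨x, a, k, bot_le (a := MulAction.stabilizer Grig v) b, p⟩)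
      h1 h2 ((tr n).1 _ ⟨g 1, fl _ (g 0 * g 3 * g 0) _ 1 rfl (by simp [Pr, act, mul_smul]), g 2, trivial,
        by simp [Pr, act]⟩)

end Pool.Agent.H.MP_68c508_lc
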