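import Pool.Agent.H.MP_68c508_lc.A

set_option autoImplicit false

namespace Pool.Agent.H.MP_68c508_lc

open scoped commutatorElement

section
variable {G : Type} [Group G]

def AD (x f : G) : Prop :=
  ∀ h, ¬Commute f h → ∃ p q, Commute p x ∧ Commute q x ∧ ¬⁅p, ⁅q, h⁆⁆ = 1 ∧ Commute ⁅p, ⁅q, h⁆⁆ x
def Sb (h f : G) : Prop := ∀ x, AD x f → Commute h (x ^ 12)
def Dj (f x : G) : Prop := ∀ h, Sb h f → Sb h x → h = 1
def Blk (f : G) : Prop := ¬f = 1 ∧ ∀ x, Sb (x * f * x⁻¹) f ∨ Dj (x * f * x⁻¹) f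
def Le (x y : G) : Prop := ∃ z, Sb (z * y * z⁻¹) x
def Sc (x y : G) : Prop := Blk x ∧ Blk y ∧ Le x y ∧ ¬Le y x ∧ ∀ z, Blk z → Le z x ∨ Le y z
def Mx (x f : G) : Prop := Blk x ∧ Sb x f ∧ ∀ s, Blk s → Sb x s → Sb s f → Sb s x

end

def Mv (x : Grig) (v : W) : Prop := x • v ≠ v
def In (x : Grig) (v : W) : Prop := ∀ w, Mv x w → v <+: w
def Dn (x : Grig) (v : W) : Prop := ∀ w, ∃ w', Mv x (v ++ w ++ w')
def Cone (x : Grig) (v : W) : Prop := In x v ∧ Dn x v

variable {x y f h : Grig} {u v w : W}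

theorem peq (a : u <+: w) (b : v <+: w) (e : u.length = v.length) : u = v :=
  (List.prefix_of_prefix_length_le a b e.le).eq_of_length e

theorem Mv.ext (a : Mv x v) (b : v <+: w) : Mv x w := fun e => a (peq (e ▸ pre x b) b (len ..))

theorem Mv.mul (a : Mv (x * y) w) : Mv x w ∨ Mv y w := by
  by_contra! c
  simp only [Mv, not_not] at c
  exact a (by rw [mul_smul, c.2, c.1])

theorem mv_inv : Mv x⁻¹ w ↔ Mv x w := not_congr (inv_smul_eq_iff.trans eq_comm)

theorem mv_conj : Mv (y * x * y⁻¹) (y • w) ↔ Mv x w := by simp [Mv, mul_smul]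

theorem In.conj (a : In x v) (y : Grig) : In (y * x * y⁻¹) (y • v) := fun w b => by
  simpa using pre y (a (y⁻¹ • w) ((mv_conj (y := y)).1 (by simpa)))

theorem In.inv (a : In x v) : In x⁻¹ v := fun w b => a w (mv_inv.1 b)

theorem exmv (a : x ≠ 1) : ∃ w, Mv x w := by
  by_contra! c
  exact a (ext (by simpa [Mv] using c))

theorem cmt (a : ∀ w, Mv x w → ¬Mv y w) : Commute x y :=
  Subtype.ext (Equiv.Perm.Disjoint.commute (f := x.1) (g := y.1) fun w => by
    by_contra! c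
    exact a w c.1 c.2)

theorem Mv.cm (a : Mv x w) (c : Commute x y) : Mv x (y • w) := by
  rw [← mv_conj (y := y), ← c.eq] at a
  simpa using a

theorem nc (a : In h v) (b : h ≠ 1) (c : Mv f v) : ¬Commute f h := fun e => by
  obtain ⟨w, d⟩ := exmv b
  exact c (peq (pre f (a w d)) (a _ (d.cm e.symm)) (len ..))

theorem tau' (v : W) : ∃ x : Grig, In x v ∧ (∀ a b w, Mv x (v ++ a :: b :: w)) ∧ x ^ 12 ≠ 1 := by
  obtain ⟨x, -, a, b⟩ := tau v
  refine ⟨x, fun w h => by_contra fun c => h (b w c), fun c d w => by simpa [Mv, a] using t_mv c d w, fun e => t_12 ?_⟩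
  have : ∀ n w, x ^ n • (v ++ w) = v ++ t ^ n • w := fun n => by
    induction n <;> simp [pow_succ, mul_smul, *]
  simpa [e, eq_comm] using this 12 _

theorem n1 (a : x ^ 12 ≠ 1) : x ≠ 1 := fun e => a (by simp [e])

theorem ad_of (a : ∀ w, Mv f w → ¬Mv x w) : AD x f := fun h b => by
  obtain ⟨v, c, d⟩ : ∃ v, Mv f v ∧ Mv h v := by
    by_contra! c
    exact b (cmt c)
  obtain ⟨q, q1, q2, -⟩ := tau' v
  obtain ⟨p, p1, -, p2⟩ := tau' (v ++ [false, false])
  have i : ∀ y, In y v → Commute y x := fun y e => cmt fun w g => a w (c.ext (e w g))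
  have e : ⁅q, h⁆ • (v ++ [false, false]) = q • (v ++ [false, false]) := by
    have : ¬Mv (h * q⁻¹ * h⁻¹) (v ++ [false, false]) := fun e =>
      d (peq (q1.inv.conj h _ e) (List.prefix_append ..) (len ..))
    rw [commutatorElement_def, mul_assoc, mul_assoc, mul_smul, ← mul_assoc, not_not.1 this]
  have m := q2 false false []
  refine ⟨p, q, i p fun w g => (List.prefix_append ..).trans (p1 w g), i q q1, fun g => nc (f := ⁅q, h⁆) p1 (n1 p2)
    (by rwa [Mv, e]) (commutatorElement_eq_one_iff_commute.1 g).symm, i _ fun w g => ?_⟩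
  rw [commutatorElement_def p, mul_assoc, mul_assoc, ← mul_assoc _ p⁻¹] at g
  rcases g.mul with g | g
  · exact (List.prefix_append ..).trans (p1 w g)
  · exact (q1 _ (m.cm rfl)).trans (e ▸ p1.inv.conj _ w g)

theorem of_ad (a : AD x f) (b : Mv f v) : ¬Mv (x ^ 12) v := fun c => by
  obtain ⟨h, h1, -, h2⟩ := tau' v
  obtain ⟨p, q, p1, q1, k1, k2⟩ := a h (nc h1 (n1 h2) b)
  have e : ∀ w, Mv ⁅q, h⁆ w → v <+: w ∨ q • v <+: w := fun w g => by
    rw [commutatorElement_def] at g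
    exact g.mul.symm.imp (h1.inv w) (h1.conj q w)
  let φ : Fin 4 → Grig := ![1, q, p, p * q]
  have c1 : ∀ i, Commute (φ i) x := fun | 0 => Commute.one_left _ | 1 => q1 | 2 => p1 | 3 => p1.mul_left q1
  have k : ∀ w, Mv ⁅p, ⁅q, h⁆⁆ w → ∃ i, φ i • v <+: w := fun w g => by
    rw [commutatorElement_def p] at g
    rcases g.mul with g | g
    · rcases e (p⁻¹ • w) ((mv_conj (y := p)).1 (by simpa using g)) with g | g
      · exact ⟨2, by simpa [φ] using pre p g⟩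
      · exact ⟨3, by simpa [φ, mul_smul] using pre p g⟩
    · rcases e w (mv_inv.1 g) with g | g
      exacts [⟨0, by simpa [φ]⟩, ⟨1, g⟩]
  obtain ⟨w, g⟩ := exmv k1
  choose ι hι using fun i : Fin 5 => k _ (g.cm (k2.pow_right i))
  have l : ∀ i j : Fin 5, i < j → ι i ≠ ι j := fun i j l e => by
    have a1 := pre (x ^ (j - i : ℕ)) (hι i)
    rw [← mul_smul _ _ w, ← pow_add, Nat.sub_add_cancel l.le, ← mul_smul, ← ((c1 _).pow_right _).eq, e, mul_smul] at a1
    have a2 := smul_left_cancel _ (peq a1 (hι j) (by simp))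
    obtain ⟨n, a3⟩ : (j - i : ℕ) ∣ 12 := (by decide : ∀ i j : Fin 5, i < j → (j - i : ℕ) ∣ 12) i j l
    refine c ?_
    rw [a3, pow_mul]
    exact (MulAction.stabilizer Grig v).pow_mem a2 n
  obtain ⟨i, j, a1, a2⟩ := Fintype.exists_ne_map_eq_of_card_lt ι (by simp)
  rcases lt_or_gt_of_ne a1 with a | a
  exacts [l _ _ a a2, l _ _ a a2.symm]

theorem sb_iff : Sb h f ↔ ∀ v, Mv h v → ∃ w, Mv f (v ++ w) := by
  refine ⟨fun a v b => by_contra fun c => ?_, fun a x b => cmt fun v c d => ?_⟩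
  · obtain ⟨x, x1, -, x2⟩ := tau' v
    refine nc (fun w e => x1 w fun e' => e ((MulAction.stabilizer Grig w).pow_mem e' 12)) x2 b (a x (ad_of fun w d e => ?_))
    obtain ⟨u, rfl⟩ := x1 w e
    exact c ⟨u, d⟩
  · obtain ⟨w, e⟩ := a v c
    exact of_ad b e (d.ext (List.prefix_append ..))

theorem dj_iff : Dj f x ↔ ∀ v, Mv f v → ¬Mv x v := by
  simp only [Dj, sb_iff]
  refine ⟨fun a v b c => ?_, fun a h b c => by_contra fun d => ?_⟩
  · obtain ⟨h, h1, -, h2⟩ := tau' v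
    exact n1 h2 (a h (fun w e => ⟨[], by simpa using b.ext (h1 w e)⟩) fun w e => ⟨[], by simpa using c.ext (h1 w e)⟩)
  · obtain ⟨v, d⟩ := exmv d
    obtain ⟨w, e⟩ := b v d
    obtain ⟨u, k⟩ := c _ (d.ext (List.prefix_append v w))
    exact a _ (e.ext (List.prefix_append ..)) k

theorem Dn.ext (a : Dn x v) (b : v <+: w) : Dn x w := by
  obtain ⟨u, rfl⟩ := b
  exact fun w => by simpa using a (u ++ w)

theorem Cone.sb (a : Cone x v) : Sb x f ↔ Dn f v := by
  refine sb_iff.trans ⟨fun b w => ?_, fun b w c => ?_⟩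
  · obtain ⟨u, c⟩ := a.2 w
    obtain ⟨z, d⟩ := b _ c
    exact ⟨u ++ z, by simpa using d⟩
  · obtain ⟨u, rfl⟩ := a.1 w c
    exact b u

theorem cases3 (u v : W) : u <+: v ∨ v <+: u ∨ ∃ p a u' v', v = p ++ a :: v' ∧ u = p ++ (!a) :: u' := by
  induction u generalizing v with
  | nil => simp
  | cons a u ih =>
    rcases v with _ | ⟨b, v⟩
    · simp
    by_cases e : a = b
    · subst e
      rcases ih v with h | h | ⟨p, b, u', v', rfl, rfl⟩
      exacts [.inl (by simpa), .inr (.inl (by simpa)), .inr (.inr ⟨a :: p, b, u', v', rfl, rfl⟩)]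
    · exact .inr (.inr ⟨[], b, u, v, rfl, by simp [Bool.eq_not.2 e]⟩)

theorem Cone.dn (a : Cone y u) : Dn y v ↔ u <+: v := by
  refine ⟨fun b => ?_, a.2.ext⟩
  obtain ⟨w, c⟩ := b []
  rcases List.prefix_or_prefix_of_prefix (a.1 _ c) (by simp : v <+: _) with h | ⟨_ | ⟨d, z⟩, rfl⟩
  · exact h
  · simp
  · obtain ⟨w, c⟩ := b [!d]
    simpa using a.1 _ c

theorem Cone.conj (a : Cone x v) (y : Grig) : Cone (y * x * y⁻¹) (y • v) := ⟨a.1.conj y, fun w => by
  obtain ⟨h, e⟩ := app y v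
  obtain ⟨u, b⟩ := a.2 (h⁻¹ • w)
  obtain ⟨k, e'⟩ := app y (v ++ h⁻¹ • w)
  exact ⟨k • u, by simpa [-List.append_assoc, e, e'] using (mv_conj (y := y)).2 b⟩⟩

theorem excone (v : W) : ∃ x, Cone x v :=
  let ⟨x, a, b, _⟩ := tau' v
  ⟨x, a, fun w => ⟨[false, false], by
    rcases w with _ | ⟨c, _ | ⟨d, w⟩⟩ <;> simpa using b _ _ _⟩⟩

theorem blk_iff : Blk f ↔ ∃ v, Cone f v := by
  refine ⟨fun ⟨a, b⟩ => ?_, fun ⟨v, a⟩ => ⟨fun e => ?_, fun x => ?_⟩⟩
  · obtain ⟨v0, c⟩ := exmv a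
    obtain ⟨v, v1, v2⟩ : ∃ v, Dn f v ∧ ∀ u, Dn f u → ¬u.length < v.length :=
      (measure List.length).wf.has_min {v | Dn f v} ⟨v0, fun w => ⟨[], c.ext (by simp)⟩⟩
    refine ⟨v, fun u c => ?_, v1⟩
    rcases cases3 u v with h | h | ⟨p, a, u, v', rfl, rfl⟩
    · exact (h.eq_of_length_le (not_lt.1 (v2 u fun w => ⟨[], c.ext (by simp)⟩))) ▸ List.prefix_rfl
    · exact h
    have d : Dn f (p ++ [!a]) := fun w => by
      obtain ⟨x, x1, x2⟩ := key p a v' (w := u ++ w) (w' := w ++ u) (by simp [add_comm])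
      rcases b x with e | e
      · obtain ⟨z, e⟩ := sb_iff.1 e _ (x2 ▸ mv_conj.2 (c.ext (by simp)))
        exact ⟨u ++ z, by simpa using e⟩
      · obtain ⟨z, k⟩ := v1 []
        obtain ⟨z', k'⟩ := pre x (List.prefix_append (p ++ a :: v') ([] ++ z))
        obtain ⟨z'', k''⟩ := v1 z'
        rw [x1, ← List.append_assoc] at k'
        exact (dj_iff.1 e _ ((mv_conj.2 k).ext (k' ▸ List.prefix_append ..)) k'').elim
    obtain rfl : v' = [] := by simpa using v2 _ d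
    refine (v2 p (fun w => ?_) (by simp)).elim
    rcases w with _ | ⟨e, w⟩
    · obtain ⟨z, k⟩ := d []
      exact ⟨(!a) :: z, by simpa using k⟩
    · by_cases k : e = a
      · simpa [k] using v1 w
      · simpa [Bool.eq_not.2 k] using d w
  · obtain ⟨w, b⟩ := a.2 []
    exact b (by simp [e])
  · by_cases e : x • v = v
    · exact .inl ((a.conj x).sb.2 (e.symm ▸ a.2))
    · exact .inr (dj_iff.2 fun w b c => e (peq ((a.conj x).1 w b) (a.1 w c) (len ..)))

theorem le_iff (a : Cone x v) (b : Cone y u) : Le x y ↔ v.length ≤ u.length := by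
  simp only [Le, (b.conj _).sb, a.dn]
  refine ⟨fun ⟨z, c⟩ => by simpa using c.length_le, fun c => ?_⟩
  obtain ⟨z, e⟩ := trans (v := u) (w := v ++ u.drop v.length) (by simp [c])
  exact ⟨z, by simp [e]⟩

def Lv (x : Grig) (n : ℕ) : Prop := ∃ v, Cone x v ∧ v.length = n

theorem blk_lv : Blk x ↔ ∃ n, Lv x n := by simp [blk_iff, Lv]
theorem exlv (n) : ∃ x, Lv x n := let ⟨x, a⟩ := excone (List.replicate n true); ⟨x, _, a, by simp⟩
theorem Lv.le {m n} : Lv x m → Lv y n → (Le x y ↔ m ≤ n) := by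
  rintro ⟨_, a, rfl⟩ ⟨_, b, rfl⟩
  exact le_iff a b
theorem Lv.uq {m n} (a : Lv x m) (b : Lv x n) : m = n :=
  le_antisymm ((a.le b).1 ((a.le a).2 le_rfl)) ((b.le a).1 ((a.le a).2 le_rfl))

theorem sc_iff : Sc x y ↔ ∃ n, Lv x n ∧ Lv y (n + 1) := by
  simp only [Sc, blk_lv]
  refine ⟨fun ⟨⟨m, a⟩, ⟨n, b⟩, c, d, e⟩ => ⟨m, a, ?_⟩, fun ⟨n, a, b⟩ => ⟨⟨_, a⟩, ⟨_, b⟩, (a.le b).2 (by simp),
    by simp [b.le a], fun z ⟨k, c⟩ => by rw [c.le a, b.le c]; omega⟩⟩
  obtain ⟨z, k⟩ := exlv (m + 1)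
  have := e z ⟨_, k⟩
  rw [k.le a, b.le k] at this
  rw [b.le a] at d
  rwa [show m + 1 = n by omega]

theorem mx_iff (a : Cone y v) : Mx y f ↔ Dn f v ∧ ∀ u, u <+: v → Dn f u → v <+: u := by
  simp only [Mx, blk_iff, a.sb]
  refine ⟨fun ⟨_, b, c⟩ => ⟨b, fun u d e => ?_⟩, fun ⟨b, c⟩ => ⟨⟨v, a⟩, b, fun s ⟨u, d⟩ e k => ?_⟩⟩
  · obtain ⟨s, k⟩ := excone u
    exact a.dn.1 (k.sb.1 (c s ⟨u, k⟩ (k.dn.2 d) (k.sb.2 e)))
  · exact d.sb.2 (a.dn.2 (c u (d.dn.1 e) (d.sb.1 k)))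

def vx (j k : ℕ) : W := List.replicate j true ++ List.replicate (k + 1) false

theorem vx_inj {i j k l} (a : vx i k <+: w) (b : vx j l <+: w) : i = j := by
  induction i generalizing j w <;> rcases j with _ | j <;> rcases w with _ | ⟨c, w⟩ <;>
    simp_all [vx, List.replicate_succ]
  rename_i ih
  exact ih a.2 b

theorem vx_esc {j k n} (a : vx j k <+: u ++ List.replicate n true ++ w) (b : j < n) : vx j k <+: u := by
  induction u generalizing j k with
  | nil =>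
    exfalso
    induction j generalizing n <;> rcases n with _ | n <;> simp_all [vx, List.replicate_succ]
    rename_i ih
    exact (ih a).not_gt b
  | cons c u ih =>
    rcases j with _ | j
    · rcases k with _ | k
      · simp_all [vx]
      · have := @ih 0 k
        simp_all [vx, List.replicate_succ]
    · have := fun h => @ih j k h (by omega)
      simp_all [vx, List.replicate_succ]

theorem code (κ : ℕ → Option ℕ) (J : ℕ) : ∃ f : Grig, ∀ y v, Cone y v →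
    (Mx y f ↔ ∃ j < J, ∃ k, κ j = some k ∧ v = vx j k) := by
  obtain ⟨f, f1, f2⟩ : ∃ f : Grig, (∀ w, Mv f w → ∃ j < J, ∃ k, κ j = some k ∧ vx j k <+: w) ∧
      ∀ j < J, ∀ k, κ j = some k → Dn f (vx j k) := by
    induction J with
    | zero => exact ⟨1, by simp [Mv], by simp⟩
    | succ J ih =>
      obtain ⟨f, f1, f2⟩ := ih
      rcases e : κ J with _ | k
      · exact ⟨f, by grind, by grind⟩
      obtain ⟨x, x1, x2⟩ := excone (vx J k)
      refine ⟨x * f, fun w a => a.mul.elim (fun a => ⟨J, by simp, k, e, x1 w a⟩) (by grind), fun j a l b w => ?_⟩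
      rcases Nat.lt_succ_iff_lt_or_eq.1 a with a | rfl
      · obtain ⟨u, c⟩ := f2 j a l b w
        refine ⟨u, fun d => c ?_⟩
        have : ¬Mv x⁻¹ (vx j l ++ w ++ u) := fun c => a.ne' (vx_inj (l := l) (x1.inv _ c) (by simp))
        rwa [mul_smul, smul_eq_iff_eq_inv_smul, not_not.1 this] at d
      · cases e.symm.trans b
        obtain ⟨u, c⟩ := x2 w
        refine ⟨u, fun d => c ?_⟩
        have : ¬Mv f (vx j k ++ w ++ u) := fun c => let ⟨i, a, _, _, c⟩ := f1 _ c; a.ne (vx_inj (l := k) c (by simp))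
        rwa [mul_smul, not_not.1 this] at d
  have esc : ∀ u, Dn f u → ∃ j < J, ∃ k, κ j = some k ∧ vx j k <+: u := fun u a =>
    let ⟨w, b⟩ := a (List.replicate J true); let ⟨j, c, k, d, e⟩ := f1 _ b; ⟨j, c, k, d, vx_esc e c⟩
  refine ⟨f, fun y v a => (mx_iff a).trans ⟨fun ⟨b, c⟩ => ?_, ?_⟩⟩
  · obtain ⟨j, d, k, e, l⟩ := esc v b
    exact ⟨j, d, k, e, (c _ l (f2 j d k e)).eq_of_length_le l.length_le⟩
  · rintro ⟨j, d, k, e, rfl⟩
    refine ⟨f2 j d k e, fun u b c => ?_⟩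
    obtain ⟨i, -, l, m, n⟩ := esc u c
    cases vx_inj (n.trans b) List.prefix_rfl
    cases m.symm.trans e
    exact n

end Pool.Agent.H.MP_68c508_lc
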