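import Pool.Agent.H.MP_68c508_lc.B
import Pool.Agent.Lib.helper4.GFOD

set_option autoImplicit false

namespace Pool.Agent.H.MP_68c508_lc

open Function Pool.Agent.Lib.helper4.GFO Pool.Agent.Lib.helper21.Mach Pool.Agent.Lib.helper21.While

variable {Q : Type} {K : ℕ}

section
variable {G : Type} [Group G]

def Zz (z x : G) : Prop := Blk x ∧ Le x z ∧ Le z x
def Ss (z x y : G) : Prop := Sc x y ∧ Le z x
def Tt (t u : G) : Prop := Blk t ∧ ¬Le u t
def Rr (f t x : G) : Prop := Blk x ∧ ∃ y, Mx y f ∧ Sb y t ∧ Le x y ∧ Le y x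
def Pp (z f t : G) : Prop := Mx t f ∧ Le t z
def Phi (M : CM Q) (r : Q → Fin (K + 1)) (q0 : Q) (m : ℕ) (z : G) (fr : Fin (K + 1) → G) (fq : Q → G) : Prop :=
  Blk z ∧ Step M r (Zz z) (Ss z) Tt (fun i => Rr (fr i)) (fun q => Pp z (fq q)) ∧
    Init (Zz z) (Ss z) (fun i => Rr (fr i)) (fun q => Pp z (fq q)) q0 m

end

section
variable {n : ℕ} {s t u : ∀ (G : Type) [Group G], (Fin n → G) → G}

theorem d_cm (a : Dt s) (b : Dt t) : D fun _ G _ v => Commute (s G v) (t G v) := D.eq (a.mul b) (b.mul a)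
theorem d_br (a : Dt s) (b : Dt t) : Dt fun G _ v => commutatorElement.bracket (s G v) (t G v) :=
  ((a.mul b).mul a.inv).mul b.inv
theorem d_two {P : ∀ (G : Type) [Group G], G → G → Prop} (h : D fun _ G _ (v : Fin 2 → G) => P G (v 0) (v 1))
    (a : Dt s) (b : Dt t) : D fun _ G _ v => P G (s G v) (t G v) :=
  h.sb (s := ![s, t]) (Fin.forall_fin_two.2 ⟨a, b⟩)
theorem d_ad : Dt s → Dt t → D fun _ G _ v => AD (s G v) (t G v) := d_two (P := fun _ _ => AD) (by
  unfold AD
  repeat' first | exact Dt.var _ | exact Dt.one | with_reducible first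
    | apply d_br | apply d_cm | apply D.and | apply D.ex | apply D.not | apply D.eq | apply D.imp | apply D.all)
theorem d_sb : Dt s → Dt t → D fun _ G _ v => Sb (s G v) (t G v) := d_two (P := fun _ _ => Sb) (by
  unfold Sb
  repeat' first | exact Dt.var _ | with_reducible first
    | apply Dt.pow | apply d_ad | apply d_cm | apply D.imp | apply D.all)
theorem d_dj : Dt s → Dt t → D fun _ G _ v => Dj (s G v) (t G v) := d_two (P := fun _ _ => Dj) (by
  unfold Dj
  repeat' first | exact Dt.var _ | exact Dt.one | with_reducible first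
    | apply d_sb | apply D.eq | apply D.imp | apply D.all)
theorem d_blk (a : Dt s) : D fun _ G _ v => Blk (s G v) := d_two (P := fun _ _ x _ => Blk x) (by
  unfold Blk
  repeat' first | exact Dt.var _ | exact Dt.one | with_reducible first
    | apply Dt.mul | apply Dt.inv | apply d_sb | apply d_dj | apply D.and | apply D.or | apply D.not | apply D.eq
    | apply D.all) a a
theorem d_le : Dt s → Dt t → D fun _ G _ v => Le (s G v) (t G v) := d_two (P := fun _ _ => Le) (by
  unfold Le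
  repeat' first | exact Dt.var _ | with_reducible first | apply Dt.mul | apply Dt.inv | apply d_sb | apply D.ex)
theorem d_sc : Dt s → Dt t → D fun _ G _ v => Sc (s G v) (t G v) := d_two (P := fun _ _ => Sc) (by
  unfold Sc
  repeat' first | exact Dt.var _ | with_reducible first
    | apply d_blk | apply d_le | apply D.and | apply D.or | apply D.not | apply D.imp | apply D.all)
theorem d_mx : Dt s → Dt t → D fun _ G _ v => Mx (s G v) (t G v) := d_two (P := fun _ _ => Mx) (by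
  unfold Mx
  repeat' first | exact Dt.var _ | with_reducible first
    | apply d_blk | apply d_sb | apply D.and | apply D.imp | apply D.all)
theorem d_zz : Dt s → Dt t → D fun _ G _ v => Zz (s G v) (t G v) := fun a b =>
  (d_blk b).and ((d_le b a).and (d_le a b))
theorem d_ss : Dt s → Dt t → Dt u → D fun _ G _ v => Ss (s G v) (t G v) (u G v) := fun a b c =>
  (d_sc b c).and (d_le a b)
theorem d_it (a : Dt s) (b : Dt t) : D fun m G _ v => It (Zz (s G v)) (Ss (s G v)) m (t G v) :=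
  (D.it (n := 1) (Z := fun _ _ v => Zz (v 0)) (S := fun _ _ v => Ss (v 0)) (d_zz (.var _) (.var _))
    (d_ss (.var _) (.var _) (.var _))).sb (s := ![t, s]) (Fin.forall_fin_two.2 ⟨b, a⟩)

theorem d_phi [Finite Q] (M : CM Q) (r : Q → Fin (K + 1)) (q0 : Q) (z : Fin n) (fr : Fin (K + 1) → Fin n)
    (fq : Q → Fin n) : D fun m G _ (v : Fin n → G) => Phi M r q0 m (v z) (fun i => v (fr i)) fun q => v (fq q) := by
  unfold Phi Step Init
  refine .and (d_blk (.var _)) (.and (.conj fun q => .conj fun b => .conj fun q' => .cimp (.all (.imp ?_ (.all (.imp ?_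
    (.imp ?_ (.ex (.and ?_ (.and ?_ (.conj fun i => ?_)))))))))) (.ex (.and ?_ (.and (.conj fun i => ?_) ?_))))
  case refine_3 => cases b <;> unfold Tst <;> repeat' first | exact Dt.var _ | with_reducible first
    | apply d_zz | apply d_ss | apply D.ex
  case refine_6 => rcases ef M r q b i with _ | _ | _ <;> unfold Ef Rr <;> repeat' first | exact Dt.var _ | with_reducible first
    | apply d_blk | apply d_le | apply d_mx | apply d_sb | apply d_ss | apply D.and | apply D.ex | apply D.imp | apply D.all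
  all_goals simp only [Pp, Rr, Tt]
  all_goals repeat' first | exact Dt.var _ | with_reducible first
    | apply d_blk | apply d_le | apply d_mx | apply d_sb | apply d_zz | apply d_it | apply D.and | apply D.ex | apply D.not

end

variable {M : CM Q} {r : Q → Fin (K + 1)} {q0 : Q} {m : ℕ}

theorem sound (hr : ∀ q, (r q : ℕ) = M.reg q) {z : Grig} {fr fq} (h : Phi M r q0 m z fr fq) :
    Halts (M.step 0) (q0, init m) := by
  obtain ⟨h1, h2, h3⟩ := h
  obtain ⟨L, h1⟩ := blk_lv.1 h1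
  rw [halts_iff]
  by_contra! hn
  obtain ⟨c, e⟩ := Option.ne_none_iff_exists'.1 (hn (L + 1))
  obtain ⟨t, a, ⟨b, d⟩, -⟩ := run hr h2 h3 _ c e
  obtain ⟨k, b⟩ := blk_lv.1 b.1
  have : ∀ j (t : Grig) k, It (fun _ => True) Tt j t → Lv t k → j ≤ k := fun j => by
    induction j with
    | zero => simp
    | succ j ih =>
      rintro t k ⟨y, ⟨a, b⟩, c⟩ d
      obtain ⟨l, a⟩ := blk_lv.1 a
      have := ih y l c a
      rw [d.le a] at b
      omega
  have := this _ _ _ a b
  rw [b.le h1] at d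
  omega

theorem complete (hr : ∀ q, (r q : ℕ) = M.reg q) (h : Halts (M.step 0) (q0, init m)) :
    ∃ (z : Grig) (fr : _) (fq : _), Phi M r q0 m z fr fq := by
  classical
  obtain ⟨J, hJ⟩ := (halts_iff ..).1 h
  set c := fun j => (fun o => o.bind (M.step 0))^[j] (some (q0, init m)) with hc
  have cs : ∀ j, c (j + 1) = (c j).bind (M.step 0) := fun j => iterate_succ_apply' ..
  have hb : ∀ j a, c j = some a → j < J := fun j a e => by_contra fun a => by
    obtain ⟨k, rfl⟩ := Nat.exists_eq_add_of_le (not_lt.1 a)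
    have : c (J + k) = none := by
      clear e a
      induction k with
      | zero => exact hJ
      | succ k ih => rw [← add_assoc, cs, ih]; rfl
    simp [this] at e
  obtain ⟨z, hz⟩ := exlv J
  choose fr hfr using fun i : Fin (K + 1) => code (fun j => (c j).map fun a => J - j - 1 + a.2 i) J
  choose fq hfq using fun q : Q => code (fun j => (c j).bind fun a => if a.1 = q then some 0 else none) J
  have lv : ∀ j k, (vx j k).length = j + k + 1 := by simp [vx, add_assoc]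
  have hZ : ∀ x, Zz z x ↔ Lv x (J + 0) := fun x => ⟨fun ⟨a, b, d⟩ => by
    obtain ⟨k, a⟩ := blk_lv.1 a
    rwa [add_zero, ← le_antisymm ((a.le hz).1 b) ((hz.le a).1 d)],
    fun a => ⟨blk_lv.2 ⟨_, a⟩, (a.le hz).2 le_rfl, (hz.le a).2 le_rfl⟩⟩
  have hS : ∀ x y, Ss z x y ↔ ∃ k, Lv x (J + k) ∧ Lv y (J + (k + 1)) := fun x y => ⟨fun ⟨a, b⟩ => by
    obtain ⟨k, a, d⟩ := sc_iff.1 a
    obtain ⟨l, rfl⟩ := Nat.exists_eq_add_of_le ((hz.le a).1 b)
    exact ⟨l, a, d⟩, fun ⟨k, a, b⟩ => ⟨sc_iff.2 ⟨_, a, b⟩, (hz.le a).2 (by simp)⟩⟩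
  have hP : ∀ q t, Pp z (fq q) t ↔ ∃ σ j, c j = some (q, σ) ∧ Cone t (vx j 0) := fun q t => ⟨fun ⟨a, _⟩ => by
    obtain ⟨v, b⟩ := blk_iff.1 a.1
    obtain ⟨j, -, k, d, rfl⟩ := (hfq q t v b).1 a
    simp only [Option.bind_eq_some_iff, Option.ite_none_right_eq_some, Option.some.injEq] at d
    obtain ⟨⟨_, σ⟩, d, rfl, rfl⟩ := d
    exact ⟨σ, j, d, b⟩, fun ⟨σ, j, a, b⟩ => ⟨(hfq q t _ b).2 ⟨j, hb _ _ a, 0, by simp [a], rfl⟩,
      (Lv.le ⟨_, b, rfl⟩ hz).2 (by simpa [lv] using hb _ _ a)⟩⟩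
  have hR : ∀ t a, (∃ j, c j = some a ∧ Cone t (vx j 0)) → ∀ i x, Rr (fr i) t x ↔ Lv x (J + a.2 i) := by
    rintro t a ⟨j, e, b⟩ i x
    have := hb _ _ e
    refine ⟨fun ⟨a1, y, a2, a3, a4, a5⟩ => ?_, fun d => ?_⟩
    · obtain ⟨v, d⟩ := blk_iff.1 a2.1
      obtain ⟨k, a1⟩ := blk_lv.1 a1
      obtain ⟨l, -, _, f, rfl⟩ := (hfr i y v d).1 a2
      cases vx_inj (b.dn.1 (d.sb.1 a3)) List.prefix_rfl
      simp only [e, Option.map_some, Option.some.injEq] at f
      rw [a1.le ⟨_, d, rfl⟩, lv] at a4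
      rw [Lv.le ⟨_, d, rfl⟩ a1, lv] at a5
      rwa [show J + a.2 i = k by omega]
    · obtain ⟨y, f⟩ := excone (vx j (J - j - 1 + a.2 i))
      exact ⟨blk_lv.2 ⟨_, d⟩, y, (hfr i y _ f).2 ⟨j, this, _, by simp [e], rfl⟩,
        f.sb.2 (b.dn.2 (by simp [vx, List.replicate_succ])), (d.le ⟨_, f, rfl⟩).2 (by rw [lv]; omega),
        (Lv.le ⟨_, f, rfl⟩ d).2 (by rw [lv]; omega)⟩
  have uq : ∀ x a b, Lv x (J + a) → Lv x (J + b) → a = b := fun x a b d e => by simpa using d.uq e
  obtain ⟨t, a⟩ := excone (vx 0 0)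
  refine ⟨z, fr, fq, blk_lv.2 ⟨_, hz⟩, step_of uq (fun _ => exlv _) hZ hS hr _ hP hR ?_,
    init_of uq (fun _ => exlv _) hZ hS _ hP hR ⟨0, rfl, a⟩⟩
  rintro t a b ⟨j, d, e⟩ f
  obtain ⟨u, k⟩ := excone (vx (j + 1) 0)
  exact ⟨u, ⟨blk_iff.2 ⟨_, e⟩, by simp [le_iff k e, lv]⟩, j + 1, by rw [cs, d]; exact f, k⟩

end Pool.Agent.H.MP_68c508_lc
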