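import Pool.Agent.Lib.helper4.GFO

/-! The Grigorchuk group. -/

set_option autoImplicit false

namespace Pool.Agent.H.MP_68c508_lc

/-- the generators a, b, c, d are `act 0`, `act 1`, `act 2`, `act 3`; the letters 0, 1 are `false`, `true` -/
def act : Fin 4 → List Bool → List Bool
  | _, [] => []
  | 0, x :: w => (!x) :: w
  | 1, false :: w => false :: act 0 w
  | 1, true :: w => true :: act 2 w
  | 2, false :: w => false :: act 0 w
  | 2, true :: w => true :: act 3 w
  | 3, false :: w => false :: w
  | 3, true :: w => true :: act 1 w

theorem act_inv (i : Fin 4) : Function.Involutive (act i) := fun w => by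
  induction w generalizing i with
  | nil => rfl
  | cons x w ih => match i, x with
    | 0, x => simp [act]
    | 1, false | 1, true | 2, false | 2, true | 3, false | 3, true => simp [act, ih]

def gen (i : Fin 4) : Equiv.Perm (List Bool) := (act_inv i).toPerm

def Grig : Subgroup (Equiv.Perm (List Bool)) := Subgroup.closure (Set.range gen)

end Pool.Agent.H.MP_68c508_lc
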